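import Pool.Agent.Fmx.Basic

/-!
# Looking back from the scale `p ^ (-T)`

`G_T` is the set of the points `x` with `p ^ (T - t) x ∉ Bd t` for `t₀ ≤ t ≤ T`. If outside of `Bd t` the multiplication
by `p` has no folding at the scales below `δ p ^ (-t)`, then `G_T` is covered by `L` balls of radius `δ p ^ (-T)`, where
`L` does not depend on `T`. So a measure without atoms gives `G_T` a mass which tends to `0`, and if it is
invariant under `x ↦ p x`, the masses of the sets `Bd t` are not summable.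
-/

open MeasureTheory Filter Topology

open scoped ENNReal

namespace Pool.Agent.Fmx

/-- a measure without atoms: balls of a small radius have uniformly small measure -/
theorem small_ball (μ : Measure (AddCircle (1 : ℝ))) [IsProbabilityMeasure μ] (hat : ∀ x, μ {x} = 0)
    {ε : ℝ≥0∞} (hε : 0 < ε) : ∃ ρ : ℝ, 0 < ρ ∧ ∀ x, μ (Metric.closedBall x ρ) ≤ ε := by
  have h1 : ∀ x : AddCircle (1 : ℝ), ∃ U : Set (AddCircle (1 : ℝ)), {x} ⊆ U ∧ IsOpen U ∧ μ U < ε := by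
    intro x
    obtain ⟨U, hU1, hU2, hU3⟩ := Set.exists_isOpen_lt_of_lt (μ := μ) {x} ε (by rw [hat x]; exact hε)
    exact ⟨U, hU1, hU2, hU3⟩
  choose U hU1 hU2 hU3 using h1
  obtain ⟨δ, hδ, hδU⟩ := lebesgue_number_lemma_of_metric (isCompact_univ (X := AddCircle (1 : ℝ))) hU2
    (fun x _ => Set.mem_iUnion.2 ⟨x, hU1 x rfl⟩)
  refine ⟨δ / 2, half_pos hδ, fun x => ?_⟩
  obtain ⟨i, hi⟩ := hδU x (Set.mem_univ x)
  refine le_trans (measure_mono ?_) (hU3 i).le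
  exact (Metric.closedBall_subset_ball (half_lt_self hδ)).trans hi

/-- the points whose images `p ^ (T - t) x` are not in `Bd t` for `t₀ ≤ t ≤ T` -/
def back (p : ℕ) (Bd : ℕ → Set (AddCircle (1 : ℝ))) (t₀ T : ℕ) : Set (AddCircle (1 : ℝ)) :=
  {x | ∀ t, t₀ ≤ t → t ≤ T → p ^ (T - t) • x ∉ Bd t}

/-- two points of `back` which are close after `T - t₀ + 1` steps are very close -/
theorem back_close {p : ℕ} (hp : 2 ≤ p) {Bd : ℕ → Set (AddCircle (1 : ℝ))} {δ : ℝ} {t₀ : ℕ}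
    (ht₀ : 1 ≤ t₀)
    (hsep : ∀ t, t₀ ≤ t → ∀ x ∉ Bd t, ∀ y ∉ Bd t, ∀ d : ℝ, d * (p : ℝ) ^ t ≤ δ →
      ‖p • (x - y)‖ ≤ p * d → ‖x - y‖ ≤ d) {T : ℕ} (hT : t₀ ≤ T) {x y : AddCircle (1 : ℝ)}
    (hx : x ∈ back p Bd t₀ T) (hy : y ∈ back p Bd t₀ T)
    (hxy : ‖p ^ (T - (t₀ - 1)) • (x - y)‖ ≤ δ / (p : ℝ) ^ (t₀ - 1)) :
    ‖x - y‖ ≤ δ / (p : ℝ) ^ T := by
  have hp0 : (0 : ℝ) < p := by positivity
  have key : ∀ t, t₀ - 1 ≤ t → t ≤ T → ‖p ^ (T - t) • (x - y)‖ ≤ δ / (p : ℝ) ^ t := by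
    intro t ht
    induction t, ht using Nat.le_induction with
    | base =>
      intro _
      exact hxy
    | succ t ht ih =>
      intro htT
      have h1 := ih (by omega)
      have hxi := hx (t + 1) (by omega) htT
      have hyi := hy (t + 1) (by omega) htT
      have h2 := hsep (t + 1) (by omega) _ hxi _ hyi (δ / (p : ℝ) ^ (t + 1)) ?_ ?_
      · rw [← smul_sub] at h2
        exact h2
      · rw [div_mul_cancel₀ _ (by positivity)]
      · rw [← smul_sub, smul_smul, ← pow_succ', show T - (t + 1) + 1 = T - t by omega]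
        refine h1.trans (le_of_eq ?_)
        rw [pow_succ]
        field_simp
  have h5 := key T (by omega) le_rfl
  rwa [Nat.sub_self, pow_zero, one_smul] at h5

/-- **Covering.** The number of the balls does not depend on `T`. -/
theorem back_cover {p : ℕ} (hp : 2 ≤ p) {Bd : ℕ → Set (AddCircle (1 : ℝ))} {δ : ℝ} (hδ : 0 < δ)
    {t₀ : ℕ} (ht₀ : 1 ≤ t₀)
    (hsep : ∀ t, t₀ ≤ t → ∀ x ∉ Bd t, ∀ y ∉ Bd t, ∀ d : ℝ, d * (p : ℝ) ^ t ≤ δ →
      ‖p • (x - y)‖ ≤ p * d → ‖x - y‖ ≤ d) :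
    ∃ L : ℕ, ∀ T, t₀ ≤ T → ∃ F : Finset (AddCircle (1 : ℝ)), F.card ≤ L ∧
      back p Bd t₀ T ⊆ ⋃ w ∈ F, Metric.closedBall w (δ / (p : ℝ) ^ T) := by
  classical
  have hp0 : (0 : ℝ) < p := by positivity
  set δ' : ℝ := δ / (p : ℝ) ^ (t₀ - 1) with hδ'
  have hδ'0 : 0 < δ' := by positivity
  obtain ⟨t, -, htf, hcov⟩ := (isCompact_univ (X := AddCircle (1 : ℝ))).finite_cover_balls (half_pos hδ'0)
  set E := htf.toFinset with hE
  refine ⟨E.card, fun T hT => ?_⟩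
  -- a point in each nonempty piece
  set P : AddCircle (1 : ℝ) → Set (AddCircle (1 : ℝ)) := fun w =>
    back p Bd t₀ T ∩ (fun x : AddCircle (1 : ℝ) => p ^ (T - (t₀ - 1)) • x) ⁻¹' (Metric.ball w (δ' / 2)) with hP
  set c : AddCircle (1 : ℝ) → AddCircle (1 : ℝ) := fun w => if h : (P w).Nonempty then h.some else 0 with hc
  refine ⟨E.image c, Finset.card_image_le, ?_⟩
  intro x hx
  have h := hcov (Set.mem_univ (p ^ (T - (t₀ - 1)) • x))
  simp only [Set.mem_iUnion] at h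
  obtain ⟨w, hw, hz⟩ := h
  have hxP : x ∈ P w := ⟨hx, hz⟩
  have hne : (P w).Nonempty := ⟨x, hxP⟩
  have hcw : c w ∈ P w := by
    rw [hc]
    simp only [hne, dif_pos]
    exact hne.some_mem
  refine Set.mem_iUnion₂.2 ⟨c w, Finset.mem_image_of_mem c (htf.mem_toFinset.2 hw), ?_⟩
  rw [Metric.mem_closedBall, dist_eq_norm]
  refine back_close hp ht₀ hsep hT hx hcw.1 ?_
  have h2 := hcw.2
  rw [Set.mem_preimage, Metric.mem_ball] at h2
  rw [Metric.mem_ball] at hz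
  rw [smul_sub, ← dist_eq_norm]
  have h3 := dist_triangle_right (p ^ (T - (t₀ - 1)) • x) (p ^ (T - (t₀ - 1)) • c w) w
  linarith

theorem back_mono {p : ℕ} {Bd : ℕ → Set (AddCircle (1 : ℝ))} {t₀ t₁ T : ℕ} (h : t₀ ≤ t₁) :
    back p Bd t₀ T ⊆ back p Bd t₁ T := fun _ hx t ht htT => hx t (h.trans ht) htT

/-- **The mass tends to zero** (no invariance). -/
theorem back_tendsto {p : ℕ} (hp : 2 ≤ p) (μ : Measure (AddCircle (1 : ℝ))) [IsProbabilityMeasure μ]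
    (hat : ∀ x, μ {x} = 0) {Bd : ℕ → Set (AddCircle (1 : ℝ))} {δ : ℝ} (hδ : 0 < δ)
    (hsep : ∀ t, 1 ≤ t → ∀ x ∉ Bd t, ∀ y ∉ Bd t, ∀ d : ℝ, d * (p : ℝ) ^ t ≤ δ →
      ‖p • (x - y)‖ ≤ p * d → ‖x - y‖ ≤ d) (t₀ : ℕ) :
    Tendsto (fun T => μ (back p Bd t₀ T)) atTop (𝓝 0) := by
  have hp1 : (1 : ℝ) < p := by exact_mod_cast hp
  obtain ⟨L, hL⟩ := back_cover hp hδ (t₀ := max t₀ 1) (le_max_right _ _)
    (fun t ht => hsep t (le_trans (le_max_right _ _) ht))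
  rw [ENNReal.tendsto_nhds_zero]
  intro ε hε
  have hε' : (0 : ℝ≥0∞) < ε / (L + 1 : ℕ) := ENNReal.div_pos hε.ne' (ENNReal.natCast_ne_top _)
  obtain ⟨ρ, hρ, hball⟩ := small_ball μ hat hε'
  obtain ⟨m, hm⟩ : ∃ m : ℕ, δ / (p : ℝ) ^ m ≤ ρ := by
    obtain ⟨m, hm⟩ := pow_unbounded_of_one_lt (δ / ρ) hp1
    refine ⟨m, ?_⟩
    rw [div_le_iff₀ (by positivity)]
    rw [div_lt_iff₀ hρ] at hm
    linarith
  rw [eventually_atTop]
  refine ⟨max m (max t₀ 1), fun T hT => ?_⟩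
  obtain ⟨F, hF, hcov⟩ := hL T (le_trans (le_max_right _ _) hT)
  have hrad : δ / (p : ℝ) ^ T ≤ ρ := by
    refine le_trans ?_ hm
    apply div_le_div_of_nonneg_left hδ.le (by positivity)
    exact pow_le_pow_right₀ hp1.le (le_trans (le_max_left _ _) hT)
  calc μ (back p Bd t₀ T) ≤ μ (⋃ w ∈ F, Metric.closedBall w (δ / (p : ℝ) ^ T)) :=
        measure_mono ((back_mono (le_max_left t₀ 1)).trans hcov)
    _ ≤ ∑ w ∈ F, μ (Metric.closedBall w (δ / (p : ℝ) ^ T)) := measure_biUnion_finset_le _ _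
    _ ≤ ∑ _w ∈ F, ε / (L + 1 : ℕ) := by
        apply Finset.sum_le_sum
        intro w _
        exact (measure_mono (Metric.closedBall_subset_closedBall hrad)).trans (hball w)
    _ = F.card * (ε / (L + 1 : ℕ)) := by rw [Finset.sum_const, nsmul_eq_mul]
    _ ≤ (L + 1 : ℕ) * (ε / (L + 1 : ℕ)) := by
        gcongr
        omega
    _ = ε := ENNReal.mul_div_cancel (by positivity) (ENNReal.natCast_ne_top _)

theorem mp_pow {p : ℕ} {μ : Measure (AddCircle (1 : ℝ))}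
    (hinv : MeasurePreserving (fun x : AddCircle (1 : ℝ) => p • x) μ μ) (i : ℕ) :
    MeasurePreserving (fun x : AddCircle (1 : ℝ) => p ^ i • x) μ μ := by
  have h := hinv.iterate i
  rw [smul_iterate] at h
  exact h

/-- **The masses of the sets `Bd t` are not summable.** -/
theorem sum_top {p : ℕ} (hp : 2 ≤ p) (μ : Measure (AddCircle (1 : ℝ))) [IsProbabilityMeasure μ]
    (hinv : MeasurePreserving (fun x : AddCircle (1 : ℝ) => p • x) μ μ) (hat : ∀ x, μ {x} = 0)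
    {Bd : ℕ → Set (AddCircle (1 : ℝ))} (hBd : ∀ t, MeasurableSet (Bd t)) {δ : ℝ} (hδ : 0 < δ)
    (hsep : ∀ t, 1 ≤ t → ∀ x ∉ Bd t, ∀ y ∉ Bd t, ∀ d : ℝ, d * (p : ℝ) ^ t ≤ δ →
      ‖p • (x - y)‖ ≤ p * d → ‖x - y‖ ≤ d) :
    ∑' t, μ (Bd t) = ∞ := by
  by_contra hsum
  have htail := ENNReal.tendsto_sum_nat_add (fun t => μ (Bd t)) hsum
  obtain ⟨t₀, ht₀⟩ := ((tendsto_order.1 htail).2 (1 / 2) (by norm_num)).exists
  have hlim := back_tendsto hp μ hat hδ hsep t₀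
  obtain ⟨T, hT⟩ := ((tendsto_order.1 hlim).2 (1 / 2) (by norm_num)).exists
  have hcompl : (back p Bd t₀ T)ᶜ ⊆ ⋃ i ∈ Finset.range (T + 1),
      (fun x : AddCircle (1 : ℝ) => p ^ (T - (t₀ + i)) • x) ⁻¹' (Bd (t₀ + i)) := by
    intro x hx
    unfold back at hx
    simp only [Set.mem_compl_iff, Set.mem_ofPred_eq, not_forall, not_not] at hx
    obtain ⟨t, h1, h2, h3⟩ := hx
    refine Set.mem_iUnion₂.2 ⟨t - t₀, Finset.mem_range.2 (by omega), ?_⟩
    rw [Set.mem_preimage, show t₀ + (t - t₀) = t by omega]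
    exact h3
  have h1 : μ (back p Bd t₀ T)ᶜ < 1 / 2 := by
    calc μ (back p Bd t₀ T)ᶜ ≤ μ (⋃ i ∈ Finset.range (T + 1),
          (fun x : AddCircle (1 : ℝ) => p ^ (T - (t₀ + i)) • x) ⁻¹' (Bd (t₀ + i))) := measure_mono hcompl
      _ ≤ ∑ i ∈ Finset.range (T + 1),
          μ ((fun x : AddCircle (1 : ℝ) => p ^ (T - (t₀ + i)) • x) ⁻¹' (Bd (t₀ + i))) :=
          measure_biUnion_finset_le _ _
      _ = ∑ i ∈ Finset.range (T + 1), μ (Bd (i + t₀)) := by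
          apply Finset.sum_congr rfl
          intro i _
          rw [(mp_pow hinv _).measure_preimage (hBd _).nullMeasurableSet, add_comm]
      _ ≤ ∑' i, μ (Bd (i + t₀)) := ENNReal.sum_le_tsum _
      _ < 1 / 2 := ht₀
  have h2 : (1 : ℝ≥0∞) ≤ μ (back p Bd t₀ T) + μ (back p Bd t₀ T)ᶜ := by
    calc (1 : ℝ≥0∞) = μ Set.univ := measure_univ.symm
      _ = μ (back p Bd t₀ T ∪ (back p Bd t₀ T)ᶜ) := by rw [Set.union_compl_self]
      _ ≤ μ (back p Bd t₀ T) + μ (back p Bd t₀ T)ᶜ := measure_union_le _ _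
  have h3 : μ (back p Bd t₀ T) + μ (back p Bd t₀ T)ᶜ < 1 / 2 + 1 / 2 := ENNReal.add_lt_add hT h1
  rw [ENNReal.add_halves] at h3
  exact absurd (h2.trans_lt h3) (lt_irrefl _)

/-- sums over blocks of length `κ` -/
theorem sum_div_block (f : ℕ → ℝ≥0∞) (κ m : ℕ) (hκ : 1 ≤ κ) :
    ∑ j ∈ Finset.range (κ * m), f (j / κ) = κ * ∑ s ∈ Finset.range m, f s := by
  induction m with
  | zero => simp
  | succ m ih =>
    rw [Nat.mul_succ, Finset.sum_range_add, ih, Finset.sum_range_succ, mul_add]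
    congr 1
    have h : ∀ x ∈ Finset.range κ, f ((κ * m + x) / κ) = f m := by
      intro x hx
      rw [Nat.mul_add_div (by omega), Nat.div_eq_of_lt (Finset.mem_range.1 hx), add_zero]
    rw [Finset.sum_congr rfl h, Finset.sum_const, Finset.card_range, nsmul_eq_mul]

theorem tsum_div_le (f : ℕ → ℝ≥0∞) (κ : ℕ) (hκ : 1 ≤ κ) :
    ∑' j, f (j / κ) ≤ κ * ∑' s, f s := by
  rw [ENNReal.tsum_eq_iSup_nat]
  apply iSup_le
  intro m
  calc ∑ j ∈ Finset.range m, f (j / κ) ≤ ∑ j ∈ Finset.range (κ * m), f (j / κ) := by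
        apply Finset.sum_le_sum_of_subset
        apply Finset.range_subset_range.2
        nlinarith
    _ = κ * ∑ s ∈ Finset.range m, f s := sum_div_block f κ m hκ
    _ ≤ κ * ∑' s, f s := by
        gcongr
        exact ENNReal.sum_le_tsum _

end Pool.Agent.Fmx
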