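import Mathlib

/-!
# The characters of the circle and the translations by `k / p`
-/

open MeasureTheory

open scoped ENNReal

namespace Pool.Agent.Fmx

/-- the point `1 / p` -/
noncomputable def uu (p : ℕ) : AddCircle (1 : ℝ) := ((1 / (p : ℝ) : ℝ) : AddCircle (1 : ℝ))

theorem exists_rep (δ : AddCircle (1 : ℝ)) : ∃ z : ℝ, (z : AddCircle (1 : ℝ)) = δ ∧ |z| = ‖δ‖ := by
  obtain ⟨x, rfl⟩ := QuotientAddGroup.mk_surjective δ
  refine ⟨x - round x, ?_, ?_⟩
  · have : ((x - (round x : ℝ) : ℝ) : AddCircle (1 : ℝ)) = (x : AddCircle (1 : ℝ)) - ((round x : ℝ) : AddCircle (1 : ℝ)) := by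
      rfl
    rw [this]
    have h2 : ((round x : ℝ) : AddCircle (1 : ℝ)) = 0 := by
      rw [AddCircle.coe_eq_zero_iff]
      exact ⟨round x, by simp⟩
    rw [h2, sub_zero]
  · have := AddCircle.norm_eq (p := (1 : ℝ)) (x := x)
    rw [inv_one, one_mul, mul_one] at this
    exact this.symm

theorem norm_coe_le (t : ℝ) : ‖(t : AddCircle (1 : ℝ))‖ ≤ |t| := by
  have h := AddCircle.norm_eq (p := (1 : ℝ)) (x := t)
  rw [inv_one, one_mul, mul_one] at h
  rw [h]
  have h2 := round_le t 0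
  simpa using h2

theorem p_uu {p : ℕ} (hp : 1 ≤ p) : p • uu p = 0 := by
  unfold uu
  rw [← AddCircle.coe_nsmul, AddCircle.coe_eq_zero_iff]
  refine ⟨1, ?_⟩
  have : (p : ℝ) ≠ 0 := by positivity
  simp [nsmul_eq_mul]
  field_simp

/-- Each point `z` is within `‖p z‖ / p` of one of the points `k / p`. -/
theorem exists_k {p : ℕ} (hp : 1 ≤ p) (z : AddCircle (1 : ℝ)) :
    ∃ k : ℤ, (p : ℝ) * ‖z - k • uu p‖ ≤ ‖p • z‖ := by
  obtain ⟨t, rfl⟩ := QuotientAddGroup.mk_surjective z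
  have hp0 : (0 : ℝ) < p := by positivity
  refine ⟨round ((p : ℝ) * t), ?_⟩
  have e1 : ((t : ℝ) : AddCircle (1 : ℝ)) - (round ((p : ℝ) * t)) • uu p =
      ((t - round ((p : ℝ) * t) * (1 / (p : ℝ)) : ℝ) : AddCircle (1 : ℝ)) := by
    unfold uu
    rw [← AddCircle.coe_zsmul, ← AddCircle.coe_sub, zsmul_eq_mul]
  have e2 : p • ((t : ℝ) : AddCircle (1 : ℝ)) = (((p : ℝ) * t : ℝ) : AddCircle (1 : ℝ)) := by
    rw [← AddCircle.coe_nsmul, nsmul_eq_mul]
  have e3 : ‖(((p : ℝ) * t : ℝ) : AddCircle (1 : ℝ))‖ = |(p : ℝ) * t - round ((p : ℝ) * t)| := by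
    have h := AddCircle.norm_eq (p := (1 : ℝ)) (x := (p : ℝ) * t)
    rw [inv_one, one_mul, mul_one] at h
    exact h
  change (p : ℝ) * ‖((t : ℝ) : AddCircle (1 : ℝ)) - (round ((p : ℝ) * t)) • uu p‖ ≤
    ‖p • ((t : ℝ) : AddCircle (1 : ℝ))‖
  rw [e1, e2, e3]
  have h1 := norm_coe_le (t - round ((p : ℝ) * t) * (1 / (p : ℝ)))
  calc (p : ℝ) * ‖((t - round ((p : ℝ) * t) * (1 / (p : ℝ)) : ℝ) : AddCircle (1 : ℝ))‖
      ≤ (p : ℝ) * |t - round ((p : ℝ) * t) * (1 / (p : ℝ))| :=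
        mul_le_mul_of_nonneg_left h1 hp0.le
    _ = |(p : ℝ) * (t - round ((p : ℝ) * t) * (1 / (p : ℝ)))| := by
        rw [abs_mul, abs_of_pos hp0]
    _ = |(p : ℝ) * t - round ((p : ℝ) * t)| := by
        congr 1
        field_simp

theorem fourier_add' (a : ℤ) (x y : AddCircle (1 : ℝ)) :
    (fourier a (x + y) : ℂ) = fourier a x * fourier a y := by
  simp only [fourier_apply, smul_add, AddCircle.toCircle_add, Circle.coe_mul]

theorem norm_fourier_eq (a : ℤ) (x : AddCircle (1 : ℝ)) : ‖(fourier a x : ℂ)‖ = 1 := by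
  rw [fourier_apply]
  exact Circle.norm_coe _

/-- the characters are Lipschitz functions -/
theorem fourier_lip (a : ℤ) (x y : AddCircle (1 : ℝ)) :
    ‖(fourier a x : ℂ) - fourier a y‖ ≤ 2 * Real.pi * |(a : ℝ)| * ‖x - y‖ := by
  obtain ⟨t, ht, htn⟩ := exists_rep (x - y)
  have hx : x = y + (x - y) := by abel
  have e1 : (fourier a x : ℂ) - fourier a y = fourier a y * (fourier a (x - y) - 1) := by
    conv_lhs => rw [hx, fourier_add']
    ring
  rw [e1, norm_mul, norm_fourier_eq, one_mul, ← ht, fourier_coe_apply]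
  have e2 : Complex.exp (2 * Real.pi * Complex.I * a * t / ((1 : ℝ) : ℂ)) =
      Complex.exp (Complex.I * ((2 * Real.pi * a * t : ℝ) : ℂ)) := by
    congr 1
    push_cast
    ring
  rw [e2, ht, ← htn]
  refine (Real.norm_exp_I_mul_ofReal_sub_one_le (x := 2 * Real.pi * a * t)).trans ?_
  rw [Real.norm_eq_abs, abs_mul, abs_mul, abs_mul, abs_of_pos Real.pi_pos, abs_of_pos (by norm_num : (0 : ℝ) < 2)]

/-- A character at a multiple of `1 / p`: only the residue of the frequency modulo `p` matters. -/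
theorem fourier_uu {p : ℕ} (hp : 1 ≤ p) {a b : ℤ} (hab : (p : ℤ) ∣ a - b) (k : ℤ) :
    (fourier a (k • uu p) : ℂ) = fourier b (k • uu p) := by
  obtain ⟨t, ht⟩ := hab
  have ha : a = b + (p : ℤ) * t := by linarith
  have h0 : ((p : ℤ) * t) • (k • uu p) = 0 := by
    rw [smul_smul, show (p : ℤ) * t * k = (t * k) * (p : ℤ) by ring, mul_smul, natCast_zsmul,
      p_uu hp, smul_zero]
  rw [fourier_apply, fourier_apply, ha, add_smul, h0, add_zero]

/-- a nontrivial square or cube root of unity is far from `1` -/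
theorem root_far {p : ℕ} (hp : p = 2 ∨ p = 3) {z : ℂ} (h1 : z ^ p = 1) (h2 : z ≠ 1) :
    (3 : ℝ) / 2 ≤ ‖z - 1‖ := by
  rcases hp with rfl | rfl
  · have h3 : (z - 1) * (z + 1) = 0 := by linear_combination h1
    rcases mul_eq_zero.1 h3 with h | h
    · exact absurd (sub_eq_zero.1 h) h2
    · have h4 : z - 1 = -2 := by linear_combination h
      rw [h4]
      norm_num
  · have h3 : (z - 1) * (z ^ 2 + z + 1) = 0 := by linear_combination h1
    rcases mul_eq_zero.1 h3 with h | h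
    · exact absurd (sub_eq_zero.1 h) h2
    · have h4 : (z - 1) ^ 2 = -3 * z := by linear_combination h
      have h5 : ‖z‖ = 1 := by
        have h6 : ‖z‖ ^ 3 = 1 := by rw [← norm_pow, h1, norm_one]
        have h7 : 0 ≤ ‖z‖ := norm_nonneg z
        nlinarith [sq_nonneg (‖z‖ + 1), sq_nonneg ‖z‖]
      have h6 : ‖z - 1‖ ^ 2 = 3 := by
        rw [← norm_pow, h4, norm_mul, h5]
        norm_num
      nlinarith [norm_nonneg (z - 1)]

/-- `e(n k / p)` is a nontrivial `p`-th root of unity when `n` and `k` are not divisible by `p` -/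
theorem zeta_far {p : ℕ} (hp : p = 2 ∨ p = 3) {n k : ℤ} (hn : ¬ (p : ℤ) ∣ n) (hk : ¬ (p : ℤ) ∣ k) :
    (3 : ℝ) / 2 ≤ ‖(fourier n (k • uu p) : ℂ) - 1‖ := by
  have hp1 : 1 ≤ p := by omega
  have hprime : Prime (p : ℤ) := by
    rcases hp with rfl | rfl
    · exact Int.prime_two
    · exact Int.prime_three
  apply root_far hp
  · rw [fourier_apply, ← Circle.coe_pow, ← AddCircle.toCircle_nsmul]
    have h0 : p • (n • (k • uu p)) = 0 := by
      rw [smul_comm p n, smul_comm p k, p_uu hp1, smul_zero, smul_zero]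
    rw [h0]
    simp
  · intro h
    rw [fourier_apply] at h
    have h1 : (n • (k • uu p)).toCircle = 1 := by
      apply Circle.coe_injective
      rw [h]
      simp
    have h2 : n • (k • uu p) = 0 := by
      have h3 := AddCircle.injective_toCircle (T := (1 : ℝ)) one_ne_zero
      apply h3
      rw [h1, AddCircle.toCircle_zero]
    unfold uu at h2
    rw [← AddCircle.coe_zsmul, ← AddCircle.coe_zsmul, AddCircle.coe_eq_zero_iff] at h2
    obtain ⟨m, hm⟩ := h2
    have hp0 : (p : ℝ) ≠ 0 := by positivity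
    simp only [zsmul_eq_mul, mul_one] at hm
    have h3 : ((m * (p : ℤ) : ℤ) : ℝ) = ((n * k : ℤ) : ℝ) := by
      push_cast
      rw [hm]
      field_simp
    have h4 : m * (p : ℤ) = n * k := by exact_mod_cast h3
    have h5 : (p : ℤ) ∣ n * k := ⟨m, by linarith⟩
    rcases hprime.dvd_or_dvd h5 with h6 | h6
    · exact hn h6
    · exact hk h6

end Pool.Agent.Fmx
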