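import Pool.Agent.Fmx.Atoms

/-!
# The criterion: trigonometric polynomials with frequencies in one class modulo `p`

Let `p` be `2` or `3` and let `f` be a trigonometric polynomial whose frequencies are in one class modulo `p`, not the class
of `0`. Then `f (z + k / p) = ζ f z` with a root of unity `ζ ≠ 1` for `p ∤ k`, so `f` is not close to `1` at two points
whose difference is very close to `k / p`.
-/

open MeasureTheory Filter Topology

open scoped ENNReal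

namespace Pool.Agent.Fmx

/-- the trigonometric polynomial `∑ w s e(s x)`, `s ∈ S` -/
noncomputable def tp (S : Finset ℤ) (w : ℤ → ℂ) (x : AddCircle (1 : ℝ)) : ℂ :=
  ∑ s ∈ S, w s * (fourier s x : ℂ)

theorem continuous_tp (S : Finset ℤ) (w : ℤ → ℂ) : Continuous (tp S w) := by
  unfold tp
  exact continuous_finsetSum _ fun s _ => continuous_const.mul (fourier s).continuous

theorem tp_lip {S : Finset ℤ} {w : ℤ → ℂ} {Λ : ℝ} (hΛ : ∑ s ∈ S, ‖w s‖ * |(s : ℝ)| ≤ Λ)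
    (x y : AddCircle (1 : ℝ)) : ‖tp S w x - tp S w y‖ ≤ 2 * Real.pi * Λ * ‖x - y‖ := by
  unfold tp
  rw [← Finset.sum_sub_distrib]
  refine (norm_sum_le _ _).trans ?_
  have h1 : ∀ s ∈ S, ‖w s * (fourier s x : ℂ) - w s * (fourier s y : ℂ)‖ ≤
      (‖w s‖ * |(s : ℝ)|) * (2 * Real.pi * ‖x - y‖) := by
    intro s hs
    rw [← mul_sub, norm_mul]
    calc ‖w s‖ * ‖(fourier s x : ℂ) - fourier s y‖ ≤ ‖w s‖ * (2 * Real.pi * |(s : ℝ)| * ‖x - y‖) :=
          mul_le_mul_of_nonneg_left (fourier_lip s x y) (norm_nonneg _)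
      _ = (‖w s‖ * |(s : ℝ)|) * (2 * Real.pi * ‖x - y‖) := by ring
  refine (Finset.sum_le_sum h1).trans ?_
  rw [← Finset.sum_mul]
  calc (∑ s ∈ S, ‖w s‖ * |(s : ℝ)|) * (2 * Real.pi * ‖x - y‖) ≤ Λ * (2 * Real.pi * ‖x - y‖) :=
        mul_le_mul_of_nonneg_right hΛ (by positivity)
    _ = 2 * Real.pi * Λ * ‖x - y‖ := by ring

/-- the effect of the translation by `k / p` -/
theorem tp_shift {p : ℕ} (hp : 1 ≤ p) {S : Finset ℤ} {w : ℤ → ℂ} {a : ℤ}
    (hS : ∀ s ∈ S, (p : ℤ) ∣ s - a) (k : ℤ) (z : AddCircle (1 : ℝ)) :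
    tp S w (z + k • uu p) = fourier a (k • uu p) * tp S w z := by
  unfold tp
  rw [Finset.mul_sum]
  apply Finset.sum_congr rfl
  intro s hs
  rw [fourier_add', fourier_uu hp (hS s hs)]
  ring

/-- **Separation.** -/
theorem sep {p : ℕ} (hp : p = 2 ∨ p = 3) {S : Finset ℤ} {w : ℤ → ℂ} {Λ : ℝ}
    (hΛ : ∑ s ∈ S, ‖w s‖ * |(s : ℝ)| ≤ Λ)
    (hS : ∀ s ∈ S, ¬ (p : ℤ) ∣ s) (hS' : ∀ s ∈ S, ∀ s' ∈ S, (p : ℤ) ∣ s - s') {k : ℤ}
    (hk : ¬ (p : ℤ) ∣ k) {x y : AddCircle (1 : ℝ)} (hx : ‖tp S w x - 1‖ < 1 / 2)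
    (hy : ‖tp S w y - 1‖ < 1 / 2) :
    1 / 2 < 2 * Real.pi * Λ * ‖x - y - k • uu p‖ := by
  have hp1 : 1 ≤ p := by omega
  obtain ⟨a, ha⟩ : S.Nonempty := by
    rw [Finset.nonempty_iff_ne_empty]
    intro h
    subst h
    unfold tp at hx
    norm_num at hx
  have hz := zeta_far hp (hS a ha) hk
  set ζ : ℂ := fourier a (k • uu p) with hζ
  set v : AddCircle (1 : ℝ) := x - k • uu p with hv
  have e1 : x = v + k • uu p := by
    rw [hv]
    abel
  have e2 : tp S w x = ζ * tp S w v := by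
    conv_lhs => rw [e1]
    exact tp_shift hp1 (fun s hs => hS' s hs a ha) k v
  have hζ1 : ‖ζ‖ = 1 := norm_fourier_eq _ _
  have h3 : ‖tp S w y - tp S w v‖ ≤ 2 * Real.pi * Λ * ‖x - y - k • uu p‖ := by
    refine (tp_lip hΛ y v).trans (le_of_eq ?_)
    rw [norm_sub_rev y v, hv]
    congr 2
    abel
  have e4 : ζ - 1 = ζ * (1 - tp S w y) + ζ * (tp S w y - tp S w v) + (tp S w x - 1) := by
    rw [e2]
    ring
  have h5 : ‖ζ - 1‖ ≤ ‖1 - tp S w y‖ + ‖tp S w y - tp S w v‖ + ‖tp S w x - 1‖ := by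
    conv_lhs => rw [e4]
    refine (norm_add₃_le).trans ?_
    rw [norm_mul, norm_mul, hζ1, one_mul, one_mul]
  rw [norm_sub_rev 1 (tp S w y)] at h5
  linarith

/-- at least half of the functions are not close to `1` -/
def BadT (r : ℕ) (S : ℕ → Finset ℤ) (w : ℕ → ℤ → ℂ) : Set (AddCircle (1 : ℝ)) :=
  {x | r ≤ 2 * ((Finset.range r).filter (fun i => 1 / 2 ≤ ‖tp (S i) (w i) x - 1‖)).card}

theorem measurableSet_badT (r : ℕ) (S : ℕ → Finset ℤ) (w : ℕ → ℤ → ℂ) :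
    MeasurableSet (BadT r S w) := by
  have h1 : ∀ x, ((Finset.range r).filter (fun i => 1 / 2 ≤ ‖tp (S i) (w i) x - 1‖)).card =
      ∑ i ∈ Finset.range r, {y | 1 / 2 ≤ ‖tp (S i) (w i) y - 1‖}.indicator (fun _ => 1) x := by
    intro x
    rw [Finset.card_filter]
    apply Finset.sum_congr rfl
    intro i _
    simp only [Set.indicator, Set.mem_ofPred_eq]
  have h2 : Measurable fun x : AddCircle (1 : ℝ) =>
      ∑ i ∈ Finset.range r, {y | 1 / 2 ≤ ‖tp (S i) (w i) y - 1‖}.indicator (fun _ => 1) x := by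
    apply Finset.measurable_fun_sum
    intro i _
    apply measurable_const.indicator
    exact measurableSet_le measurable_const
      ((continuous_tp (S i) (w i)).sub continuous_const).norm.measurable
  unfold BadT
  simp only [h1]
  exact (h2.const_mul 2) (measurableSet_Ici (a := r))

/-- two points outside of the bad set have a common good function -/
theorem common {r : ℕ} {S : ℕ → Finset ℤ} {w : ℕ → ℤ → ℂ} {x y : AddCircle (1 : ℝ)}
    (hx : x ∉ BadT r S w) (hy : y ∉ BadT r S w) :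
    ∃ i < r, ‖tp (S i) (w i) x - 1‖ < 1 / 2 ∧ ‖tp (S i) (w i) y - 1‖ < 1 / 2 := by
  classical
  unfold BadT at hx hy
  rw [Set.mem_ofPred_eq, not_le] at hx hy
  set I := (Finset.range r).filter (fun i => 1 / 2 ≤ ‖tp (S i) (w i) x - 1‖) with hI
  set J := (Finset.range r).filter (fun i => 1 / 2 ≤ ‖tp (S i) (w i) y - 1‖) with hJ
  have h1 : (I ∪ J).card < (Finset.range r).card := by
    have h2 := Finset.card_union_le I J
    rw [Finset.card_range]
    omega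
  obtain ⟨i, hi, hiIJ⟩ := Finset.exists_mem_notMem_of_card_lt_card h1
  rw [Finset.mem_union, not_or] at hiIJ
  refine ⟨i, Finset.mem_range.1 hi, ?_, ?_⟩
  · by_contra h
    exact hiIJ.1 (Finset.mem_filter.2 ⟨hi, not_lt.1 h⟩)
  · by_contra h
    exact hiIJ.2 (Finset.mem_filter.2 ⟨hi, not_lt.1 h⟩)

/-- No folding outside of the bad set. -/
theorem no_fold {p : ℕ} (hp : p = 2 ∨ p = 3) {r : ℕ} {S : ℕ → Finset ℤ} {w : ℕ → ℤ → ℂ} {Λ : ℝ}
    (hΛ0 : 0 ≤ Λ) (hΛ : ∀ i < r, ∑ s ∈ S i, ‖w i s‖ * |(s : ℝ)| ≤ Λ)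
    (hS : ∀ i < r, ∀ s ∈ S i, ¬ (p : ℤ) ∣ s) (hS' : ∀ i < r, ∀ s ∈ S i, ∀ s' ∈ S i, (p : ℤ) ∣ s - s')
    {x y : AddCircle (1 : ℝ)} (hx : x ∉ BadT r S w) (hy : y ∉ BadT r S w) {d : ℝ}
    (hd : 16 * Λ * d ≤ 1) (hxy : ‖p • (x - y)‖ ≤ p * d) : ‖x - y‖ ≤ d := by
  have hp1 : 1 ≤ p := by omega
  have hp0 : (0 : ℝ) < p := by positivity
  obtain ⟨k, hk⟩ := exists_k hp1 (x - y)
  have h1 : ‖x - y - k • uu p‖ ≤ d := le_of_mul_le_mul_left (hk.trans hxy) hp0
  by_cases hpk : (p : ℤ) ∣ k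
  · obtain ⟨j, hj⟩ := hpk
    have h2 : k • uu p = 0 := by
      rw [hj, mul_comm, mul_smul, natCast_zsmul, p_uu hp1, smul_zero]
    rwa [h2, sub_zero] at h1
  · exfalso
    obtain ⟨i, hi, hix, hiy⟩ := common hx hy
    have h2 := sep hp (hΛ i hi) (hS i hi) (hS' i hi) hpk hix hiy
    have hd0 : 0 ≤ d := (norm_nonneg _).trans h1
    have hpi : 2 * Real.pi ≤ 8 := by
      have := Real.pi_lt_four
      linarith
    have h3 : 2 * Real.pi * Λ * ‖x - y - k • uu p‖ ≤ 8 * Λ * d := by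
      apply mul_le_mul _ h1 (norm_nonneg _) (by positivity)
      exact mul_le_mul_of_nonneg_right hpi hΛ0
    linarith

/-- **Criterion.** Let `p` be `2` or `3`, let `μ` be a probability measure without atoms, and for `t ≥ 1` let
`f_(t, i) = ∑ w s e(s x)`, `i < r t`, be a finite list of trigonometric polynomials with `∑ |w s| |s| ≤ e ^ (K t)` whose
frequencies are in one class modulo `p`, not `0`. Let `B t` be the set of the points at which at least half of the `f_(t, i)`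
are not within `1 / 2` of `1`. If `μ` is invariant under `x ↦ p x`, then `∑ μ (B t) = ∞`. If `K ≤ log p`
(no invariance), the measure of the points `x` with `p ^ (T - t) x ∉ B t` for `t₀ ≤ t ≤ T` tends to `0`. -/
theorem criterion (μ : Measure (AddCircle (1 : ℝ))) [IsProbabilityMeasure μ] (hat : ∀ x, μ {x} = 0)
    {p : ℕ} (hp : p = 2 ∨ p = 3) (K : ℝ) (r : ℕ → ℕ) (S : ℕ → ℕ → Finset ℤ) (w : ℕ → ℕ → ℤ → ℂ)
    (hΛ : ∀ t, 1 ≤ t → ∀ i < r t, ∑ s ∈ S t i, ‖w t i s‖ * |(s : ℝ)| ≤ Real.exp (K * t))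
    (hS : ∀ t, 1 ≤ t → ∀ i < r t, ∀ s ∈ S t i, ¬ (p : ℤ) ∣ s)
    (hS' : ∀ t, 1 ≤ t → ∀ i < r t, ∀ s ∈ S t i, ∀ s' ∈ S t i, (p : ℤ) ∣ s - s')
    (B : ℕ → Set (AddCircle (1 : ℝ)))
    (hB : ∀ t, B t = {x | r t ≤ 2 * ((Finset.range (r t)).filter
      (fun i => 1 / 2 ≤ ‖∑ s ∈ S t i, w t i s * (fourier s x : ℂ) - 1‖)).card}) :
    (MeasurePreserving (fun x : AddCircle (1 : ℝ) => p • x) μ μ → ∑' t, μ (B t) = ∞) ∧
    (K ≤ Real.log p → ∀ t₀ : ℕ, Tendsto (fun T : ℕ =>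
      μ {x | ∀ t, t₀ ≤ t → t ≤ T → p ^ (T - t) • x ∉ B t}) atTop (𝓝 0)) := by
  have hp2 : 2 ≤ p := by omega
  have hpR : (2 : ℝ) ≤ p := by exact_mod_cast hp2
  have hp0 : (0 : ℝ) < p := by linarith
  have hBT : ∀ t, B t = BadT (r t) (S t) (w t) := hB
  constructor
  · intro hinv
    obtain ⟨κ, hκ1, hκ⟩ : ∃ κ : ℕ, 1 ≤ κ ∧ Real.exp K ≤ (p : ℝ) ^ κ := by
      obtain ⟨k, hk⟩ := pow_unbounded_of_one_lt (Real.exp K) (by linarith : (1 : ℝ) < p)
      refine ⟨k + 1, by omega, hk.le.trans ?_⟩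
      exact pow_le_pow_right₀ (by linarith) (by omega)
    have h := sum_top hp2 μ hinv hat (Bd := fun j => B (j / κ + 1))
      (fun j => by rw [hBT]; exact measurableSet_badT _ _ _)
      (δ := 1 / (16 * (p : ℝ) ^ κ)) (by positivity) ?_
    · by_contra hcon
      have h1 : ∑' s, μ (B (s + 1)) ≤ ∑' t, μ (B t) :=
        ENNReal.tsum_comp_le_tsum_of_injective (add_left_injective 1) fun t => μ (B t)
      have h2 := tsum_div_le (fun s => μ (B (s + 1))) κ hκ1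
      rw [h] at h2
      have h3 : (κ : ℝ≥0∞) * ∑' s, μ (B (s + 1)) < ∞ :=
        ENNReal.mul_lt_top (ENNReal.natCast_lt_top κ) (h1.trans_lt (lt_top_iff_ne_top.2 hcon))
      exact absurd (h2.trans_lt h3) (lt_irrefl _)
    · intro j _ x hx y hy d hd hxy
      simp only [hBT] at hx hy
      have hj1 : 1 ≤ j / κ + 1 := Nat.le_add_left 1 _
      refine no_fold hp (Real.exp_pos _).le (hΛ (j / κ + 1) hj1) (hS _ hj1)
        (hS' _ hj1) hx hy ?_ hxy
      have h1 : Real.exp (K * ((j / κ + 1 : ℕ) : ℝ)) ≤ (p : ℝ) ^ κ * (p : ℝ) ^ j := by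
        calc Real.exp (K * ((j / κ + 1 : ℕ) : ℝ)) = Real.exp K ^ (j / κ + 1) := by
              rw [← Real.exp_nat_mul, mul_comm]
          _ ≤ ((p : ℝ) ^ κ) ^ (j / κ + 1) := pow_le_pow_left₀ (Real.exp_pos _).le hκ _
          _ = (p : ℝ) ^ κ * (p : ℝ) ^ (κ * (j / κ)) := by
              rw [← pow_mul, ← pow_add]
              congr 1
              ring
          _ ≤ (p : ℝ) ^ κ * (p : ℝ) ^ j := by
              apply mul_le_mul_of_nonneg_left _ (by positivity)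
              exact pow_le_pow_right₀ (by linarith) (Nat.mul_div_le j κ)
      rcases le_or_gt d 0 with hd0 | hd0
      · have h2 : 16 * Real.exp (K * ((j / κ + 1 : ℕ) : ℝ)) * d ≤ 0 :=
          mul_nonpos_of_nonneg_of_nonpos (by positivity) hd0
        linarith
      · calc 16 * Real.exp (K * ((j / κ + 1 : ℕ) : ℝ)) * d ≤ 16 * ((p : ℝ) ^ κ * (p : ℝ) ^ j) * d := by
              apply mul_le_mul_of_nonneg_right _ hd0.le
              exact mul_le_mul_of_nonneg_left h1 (by norm_num)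
          _ = (16 * (p : ℝ) ^ κ) * (d * (p : ℝ) ^ j) := by ring
          _ ≤ (16 * (p : ℝ) ^ κ) * (1 / (16 * (p : ℝ) ^ κ)) :=
              mul_le_mul_of_nonneg_left hd (by positivity)
          _ = 1 := mul_one_div_cancel (by positivity)
  · intro hK t₀
    refine back_tendsto hp2 μ hat (δ := 1 / 16) (by norm_num) ?_ t₀
    intro t ht x hx y hy d hd hxy
    rw [hBT] at hx hy
    refine no_fold hp (Real.exp_pos _).le (hΛ t ht) (hS t ht) (hS' t ht) hx hy ?_ hxy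
    have h1 : Real.exp (K * t) ≤ (p : ℝ) ^ t := by
      calc Real.exp (K * t) = Real.exp K ^ t := by
            rw [← Real.exp_nat_mul, mul_comm]
        _ ≤ (p : ℝ) ^ t := by
            apply pow_le_pow_left₀ (Real.exp_pos _).le
            calc Real.exp K ≤ Real.exp (Real.log p) := Real.exp_le_exp.2 hK
              _ = p := Real.exp_log hp0
    rcases le_or_gt d 0 with hd0 | hd0
    · have h2 : 16 * Real.exp (K * t) * d ≤ 0 :=
        mul_nonpos_of_nonneg_of_nonpos (by positivity) hd0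
      linarith
    · have h2 : 16 * Real.exp (K * t) * d ≤ 16 * (p : ℝ) ^ t * d := by
        apply mul_le_mul_of_nonneg_right _ hd0.le
        exact mul_le_mul_of_nonneg_left h1 (by norm_num)
      nlinarith

end Pool.Agent.Fmx
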